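import Mathlib

/-!
# No integral of the group of order two generates the variety of all integrals

Let `G` be the group with two elements, `V = Var(G)` and `W` the class of all groups whose derived
subgroup lies in `V`. An integral `H` of `G` has a derived subgroup of order two, which is central,
so that `H` satisfies the law `[[x, y], z] = 1`. The wreath product of a group of order two with a
group of order three lies in `W` and does not satisfy this law.
-/

set_option autoImplicit false

namespace Pool.Agent.Results.MP_4ce577_al.CyclicOrderTwo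

open scoped commutatorElement

/-- The word `w` in the letters `x_0, x_1, …` is a law of the group `K`. -/
def IsLaw (w : FreeGroup ℕ) (K : Type*) [Group K] : Prop := ∀ f : ℕ → K, FreeGroup.lift f w = 1

/-- `K` lies in the variety generated by `G`: each law of `G` is a law of `K`. -/
def InVar (G K : Type*) [Group G] [Group K] : Prop := ∀ w : FreeGroup ℕ, IsLaw w G → IsLaw w K

/-- `H` is an integral of `G`: the derived subgroup of `H` is isomorphic to `G`. -/
def IsIntegral (H G : Type*) [Group H] [Group G] : Prop := Nonempty (commutator H ≃* G)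

/-- The word `[[x_0, x_1], x_2]`. -/
def wd : FreeGroup ℕ := ⁅⁅FreeGroup.of 0, FreeGroup.of 1⁆, FreeGroup.of 2⁆

lemma law_iff (K : Type*) [Group K] : IsLaw wd K ↔ ∀ a b c : K, ⁅⁅a, b⁆, c⁆ = 1 := by
  constructor
  · intro h a b c
    have := h (fun n => if n = 0 then a else if n = 1 then b else c)
    simpa [wd, map_commutatorElement] using this
  · intro h f
    simp only [wd, map_commutatorElement, FreeGroup.lift_apply_of]
    exact h _ _ _

/-- The group of order two. -/
abbrev C2 : Type := Multiplicative (ZMod 2)

/-- Groups of exponent two lie in the variety generated by the group of order two. -/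
lemma inVar_of_exponent_two (K : Type*) [Group K] (h : ∀ x : K, x * x = 1) : InVar C2 K := by
  have hinv : ∀ a : K, a⁻¹ = a := fun a => inv_eq_of_mul_eq_one_left (h a)
  have hc : ∀ a b : K, a * b = b * a := by
    intro a b
    rw [← hinv (a * b), mul_inv_rev, hinv, hinv]
  letI : CommGroup K := { (inferInstance : Group K) with mul_comm := hc }
  intro w hw f
  by_contra hne
  letI : Module (ZMod 2) (Additive K) := AddCommGroup.zmodModule (n := 2) (fun x => by
    rw [two_nsmul]
    exact h x.toMul)
  have h1 : ¬ ∀ φ : Module.Dual (ZMod 2) (Additive K), φ (Additive.ofMul (FreeGroup.lift f w)) = 0 := by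
    rw [Module.forall_dual_apply_eq_zero_iff]
    exact hne
  push Not at h1
  obtain ⟨φ, hφ⟩ := h1
  let g : K →* C2 := AddMonoidHom.toMultiplicativeRight φ.toAddMonoidHom
  have h2 := hw (fun n => g (f n))
  have h3 : FreeGroup.lift (fun n => g (f n)) w = g (FreeGroup.lift f w) := by
    have : FreeGroup.lift (fun n => g (f n)) = g.comp (FreeGroup.lift f) := by
      ext n
      simp
    rw [this]
    rfl
  rw [h3] at h2
  exact hφ h2

/-- An integral of the group of order two satisfies the law `[[x, y], z] = 1`. -/
lemma law_of_integral (H : Type*) [Group H] (h : IsIntegral H C2) : IsLaw wd H := by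
  rw [law_iff]
  intro a b c
  obtain ⟨e⟩ := h
  have key : ∀ x y : commutator H, x ≠ 1 → y ≠ 1 → x = y := by
    intro x y hx hy
    apply e.injective
    have h1 : e x ≠ 1 := fun hh => hx (e.injective (hh.trans (map_one e).symm))
    have h2 : e y ≠ 1 := fun hh => hy (e.injective (hh.trans (map_one e).symm))
    revert h1 h2
    generalize e x = u
    generalize e y = v
    revert u v
    decide
  have hab : ⁅a, b⁆ ∈ commutator H := Subgroup.commutator_mem_commutator (Subgroup.mem_top a)
    (Subgroup.mem_top b)
  have hn : c * ⁅a, b⁆ * c⁻¹ ∈ commutator H :=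
    (inferInstance : (commutator H).Normal).conj_mem _ hab c
  by_cases h1 : ⁅a, b⁆ = 1
  · rw [h1, commutatorElement_one_left]
  · have h2 : c * ⁅a, b⁆ * c⁻¹ ≠ 1 := by
      intro hh
      apply h1
      have : ⁅a, b⁆ = c⁻¹ * (c * ⁅a, b⁆ * c⁻¹) * c := by group
      rw [this, hh]
      group
    have h3 := key ⟨_, hab⟩ ⟨_, hn⟩ (fun hh => h1 (congrArg Subtype.val hh))
      (fun hh => h2 (congrArg Subtype.val hh))
    have h4 : ⁅a, b⁆ = c * ⁅a, b⁆ * c⁻¹ := congrArg Subtype.val h3
    rw [commutatorElement_eq_one_iff_mul_comm]
    calc ⁅a, b⁆ * c = (c * ⁅a, b⁆ * c⁻¹) * c := by rw [← h4]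
      _ = c * ⁅a, b⁆ := by group

/-- The wreath product. -/
abbrev Wr : Type := RegularWreathProduct C2 (Multiplicative (ZMod 3))

lemma wr_right {x : Wr} (hx : x ∈ commutator Wr) : x.right = 1 := by
  have h1 : commutator Wr ≤ (RegularWreathProduct.rightHom :
      Wr →* Multiplicative (ZMod 3)).ker := Abelianization.commutator_subset_ker _
  exact h1 hx

lemma wr_sq (x : commutator Wr) : x * x = 1 := by
  obtain ⟨x, hx⟩ := x
  have h1 := wr_right hx
  apply Subtype.ext
  change x * x = 1
  ext i
  · simp only [RegularWreathProduct.mul_left, RegularWreathProduct.one_left, h1]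
    simp
    generalize x.left i = u
    revert u
    decide
  · simp [h1]

lemma not_law_wr : ¬ IsLaw wd Wr := by
  rw [law_iff]
  intro h
  have h1 := h ⟨fun i => if i = 1 then Multiplicative.ofAdd 1 else 1, 1⟩
    ⟨1, Multiplicative.ofAdd 1⟩ ⟨1, Multiplicative.ofAdd 1⟩
  have h2 := congrArg (fun x : Wr => x.left 1) h1
  revert h2
  simp only [commutatorElement_def]
  decide

lemma integrable : IsIntegral (DihedralGroup 4) C2 := by
  have h1 : commutator (DihedralGroup 4) = Subgroup.zpowers (DihedralGroup.r 2) := by
    apply le_antisymm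
    · rw [commutator_def, Subgroup.commutator_le]
      intro a _ b _
      have hdec : ∀ a b : DihedralGroup 4, a * b * a⁻¹ * b⁻¹ = 1 ∨
          a * b * a⁻¹ * b⁻¹ = DihedralGroup.r 2 := by decide
      have : ⁅a, b⁆ = 1 ∨ ⁅a, b⁆ = DihedralGroup.r 2 := hdec a b
      rcases this with hh | hh
      · rw [hh]; exact one_mem _
      · rw [hh]; exact Subgroup.mem_zpowers _
    · rw [Subgroup.zpowers_le]
      have : (DihedralGroup.r 2 : DihedralGroup 4) =
          ⁅(DihedralGroup.r 1 : DihedralGroup 4), (DihedralGroup.sr 0 : DihedralGroup 4)⁆ := by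
        rw [commutatorElement_def]
        decide
      rw [this]
      exact Subgroup.commutator_mem_commutator (Subgroup.mem_top _) (Subgroup.mem_top _)
  have h2 : orderOf (DihedralGroup.r 2 : DihedralGroup 4) = 2 := by
    rw [orderOf_eq_prime_iff]
    decide
  have h3 : Nat.card (commutator (DihedralGroup 4)) = 2 := by
    rw [h1, Nat.card_zpowers, h2]
  haveI : Fact (Nat.Prime 2) := ⟨Nat.prime_two⟩
  exact ⟨mulEquivOfPrimeCardEq (p := 2) h3 (by simp)⟩

universe u

/-- Main result: there is a finite group `G` which has an integral and is such that for every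
integral `H` of `G` there is a finite group `K` whose derived subgroup lies in the variety
generated by `G` and which does not lie in the variety generated by `H`; in particular no integral
`H` generates the variety `W` of the groups `K` whose derived subgroup is in `Var(G)`. -/
theorem result : ∃ (G : Type) (_ : Group G), Finite G ∧
    (∃ (H : Type) (_ : Group H), IsIntegral H G) ∧
    ∀ (H : Type u) [Group H], IsIntegral H G →
      (∃ (K : Type) (_ : Group K), Finite K ∧ InVar G (commutator K) ∧ ¬ InVar H K) ∧
      ¬ ∀ (K : Type) [Group K], InVar H K ↔ InVar G (commutator K) := by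
  refine ⟨C2, inferInstance, inferInstance, ⟨DihedralGroup 4, inferInstance, integrable⟩, ?_⟩
  intro H _ hH
  have h1 : InVar C2 (commutator Wr) := inVar_of_exponent_two _ wr_sq
  have h2 : ¬ InVar H Wr := fun hh => not_law_wr (hh wd (law_of_integral H hH))
  refine ⟨⟨Wr, inferInstance, inferInstance, h1, h2⟩, fun hall => h2 ((hall Wr).2 h1)⟩

end Pool.Agent.Results.MP_4ce577_al.CyclicOrderTwo
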